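import Mathlib.FieldTheory.Finite.Basic
import Mathlib.Data.Nat.Totient

set_option autoImplicit false

/-!
# Kernel evaluation of a Fermat test to the base 2, and of Euler's totient

`loop N E s 1` is `2 ^ E` modulo `N` for `E < 2 ^ (8 * s)`.  It is written with the recursor and the
functions on `ℕ` that the kernel evaluates with binary arithmetic.
-/

namespace Pool.Agent.K7.H55.PL

/-- call by value for natural numbers -/
def force {α : Type} (x : ℕ) (f : ℕ → α) : α :=
  Nat.rec (motive := fun _ => α) (f x) (fun n _ => f n) (Nat.add x 1)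

theorem force_eq {α : Type} (x : ℕ) (f : ℕ → α) : force x f = f x := rfl

/-- one step of the left to right binary powering of `2`, for `8` binary digits of `E` -/
def step (N E i acc : ℕ) : ℕ :=
  Nat.mod (Nat.mul (Nat.pow (Nat.mod (Nat.pow (Nat.mod (Nat.pow (Nat.mod (Nat.pow (Nat.mod (Nat.pow
    (Nat.mod (Nat.pow (Nat.mod (Nat.pow (Nat.mod (Nat.pow acc 2) N) 2) N) 2) N) 2) N) 2) N) 2) N) 2)
      N) 2)
    (Nat.pow 2 (Nat.mod (Nat.shiftRight E (Nat.mul 8 i)) 256))) N

theorem step_modEq (N E i acc : ℕ) :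
    step N E i acc ≡ acc ^ 256 * 2 ^ ((E >>> (8 * i)) % 256) [MOD N] := by
  have h : ∀ {x y : ℕ} {m : ℕ}, x ≡ y ^ m [MOD N] →
      Nat.mod (Nat.pow x 2) N ≡ y ^ (m * 2) [MOD N] := by
    intro x y m hxy
    refine (Nat.mod_modEq _ _).trans ?_
    rw [pow_mul]
    exact hxy.pow 2
  have h0 : acc ≡ acc ^ 1 [MOD N] := by rw [pow_one]
  have h7 := h (h (h (h (h (h (h h0))))))
  have h9 := h7.pow 2
  rw [← pow_mul] at h9
  exact (Nat.mod_modEq _ _).trans (Nat.ModEq.mul_right _ h9)

/-- left to right binary powering of `2` -/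
def loop (N E s : ℕ) : ℕ → ℕ :=
  Nat.rec (fun acc => acc) (fun i ih acc => force (step N E i acc) ih) s

theorem loop_zero (N E acc : ℕ) : loop N E 0 acc = acc := rfl

theorem loop_succ (N E i acc : ℕ) : loop N E (i + 1) acc = loop N E i (step N E i acc) :=
  force_eq _ _

theorem mod_pow_succ (E i : ℕ) :
    E % 2 ^ (8 * (i + 1)) = 2 ^ (8 * i) * ((E >>> (8 * i)) % 256) + E % 2 ^ (8 * i) := by
  rw [Nat.shiftRight_eq_div_pow, show 2 ^ (8 * (i + 1)) = 2 ^ (8 * i) * 256 by
    rw [Nat.mul_add, pow_add]; norm_num, Nat.mod_mul]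
  ring

theorem loop_modEq (N E : ℕ) : ∀ s acc : ℕ,
    loop N E s acc ≡ acc ^ 2 ^ (8 * s) * 2 ^ (E % 2 ^ (8 * s)) [MOD N] := by
  intro s
  induction s with
  | zero =>
    intro acc
    rw [loop_zero]
    simp [Nat.mod_one]
    rfl
  | succ i ih =>
    intro acc
    rw [loop_succ]
    refine (ih _).trans ?_
    refine (Nat.ModEq.mul_right _ ((step_modEq N E i acc).pow _)).trans ?_
    rw [mod_pow_succ, mul_pow, ← pow_mul, ← pow_mul, pow_add 2, mul_assoc]
    have h1 : 256 * 2 ^ (8 * i) = 2 ^ (8 * (i + 1)) := by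
      rw [Nat.mul_add, pow_add]; norm_num [mul_comm]
    rw [h1, mul_comm (2 ^ (8 * i)) ((E >>> (8 * i)) % 256)]

theorem loop_eq {N E s : ℕ} (h : E < 2 ^ (8 * s)) : loop N E s 1 ≡ 2 ^ E [MOD N] := by
  have h1 := loop_modEq N E s 1
  rwa [one_pow, one_mul, Nat.mod_eq_of_lt h] at h1

/-- Euler's totient by trial division; `0` means that the fuel was not enough -/
def tot (fuel : ℕ) : ℕ → ℕ → ℕ :=
  Nat.rec (fun _ _ => 0)
    (fun _ ih p m =>
      bif Nat.ble m 1 then 1
      else bif Nat.ble (Nat.succ m) (Nat.mul p p) then Nat.pred m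
      else bif Nat.beq (Nat.mod m p) 0 then
        (force (Nat.div m p) fun q => bif Nat.beq (Nat.mod q p) 0 then Nat.mul p (ih p q)
          else Nat.mul (Nat.pred p) (ih (Nat.succ p) q))
      else ih (Nat.succ p) m) fuel

theorem tot_succ (f p m : ℕ) : tot (f + 1) p m =
    bif Nat.ble m 1 then 1
      else bif Nat.ble (Nat.succ m) (Nat.mul p p) then Nat.pred m
      else bif Nat.beq (Nat.mod m p) 0 then
        (force (Nat.div m p) fun q => bif Nat.beq (Nat.mod q p) 0 then Nat.mul p (tot f p q)
          else Nat.mul (Nat.pred p) (tot f (Nat.succ p) q))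
      else tot f (Nat.succ p) m := rfl

theorem tot_eq : ∀ f p m : ℕ, 2 ≤ p → 1 ≤ m → (∀ q : ℕ, q.Prime → q ∣ m → p ≤ q) →
    tot f p m ≠ 0 → tot f p m = Nat.totient m := by
  intro f
  induction f with
  | zero => intro p m _ _ _ h; exact absurd rfl h
  | succ f ih =>
    intro p m hp hm hq h
    rw [tot_succ] at h ⊢
    rw [force_eq] at h ⊢
    by_cases h1 : m ≤ 1
    · have : m = 1 := le_antisymm h1 hm
      subst this
      simp
      rfl
    rw [show Nat.ble m 1 = false by
      rw [← Bool.not_eq_true, Nat.ble_eq]; exact h1] at h ⊢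
    simp only [cond_false] at h ⊢
    by_cases h2 : m < p * p
    · rw [show Nat.ble (Nat.succ m) (Nat.mul p p) = true by
        rw [Nat.ble_eq]; exact h2] at h ⊢
      simp only [cond_true] at h ⊢
      have hpr : m.Prime := by
        have h3 := Nat.minFac_prime (n := m) (by omega)
        have h4 := hq _ h3 (Nat.minFac_dvd m)
        by_contra h5
        have h6 := Nat.minFac_sq_le_self (by omega) h5
        nlinarith
      rw [Nat.totient_prime hpr]
      rfl
    rw [show Nat.ble (Nat.succ m) (Nat.mul p p) = false by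
      rw [← Bool.not_eq_true, Nat.ble_eq]; exact h2] at h ⊢
    simp only [cond_false] at h ⊢
    by_cases h3 : m % p = 0
    · rw [show Nat.beq (Nat.mod m p) 0 = true by
        rw [Nat.beq_eq]; exact h3] at h ⊢
      simp only [cond_true] at h ⊢
      obtain ⟨q, hmq⟩ := Nat.dvd_of_mod_eq_zero h3
      have hdiv : Nat.div m p = q := by
        rw [hmq]; exact Nat.mul_div_cancel_left q (by omega)
      rw [hdiv] at h ⊢
      have hq1 : 1 ≤ q := by
        rcases Nat.eq_zero_or_pos q with h4 | h4
        · rw [h4, mul_zero] at hmq; omega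
        · exact h4
      have hpp : p.Prime := by
        have h4 := Nat.minFac_prime (n := p) (by omega)
        have h5 := hq _ h4 ((Nat.minFac_dvd p).trans (Dvd.intro q hmq.symm))
        have h6 : p.minFac = p := le_antisymm (Nat.minFac_le (by omega)) h5
        rw [← h6]; exact h4
      have hqq : ∀ r : ℕ, r.Prime → r ∣ q → p ≤ r := fun r hr hrq =>
        hq r hr (hmq ▸ Dvd.dvd.mul_left hrq p)
      by_cases h7 : q % p = 0
      · rw [show Nat.beq (Nat.mod q p) 0 = true by
          rw [Nat.beq_eq]; exact h7] at h ⊢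
        simp only [cond_true] at h ⊢
        have h8 : tot f p q ≠ 0 := by
          intro h9
          exact h (by rw [h9]; exact Nat.mul_zero p)
        rw [ih p q hp hq1 hqq h8, hmq]
        exact (Nat.totient_mul_of_prime_of_dvd hpp (Nat.dvd_of_mod_eq_zero h7)).symm
      · rw [show Nat.beq (Nat.mod q p) 0 = false by
          rw [← Bool.not_eq_true, Nat.beq_eq]; exact h7] at h ⊢
        simp only [cond_false] at h ⊢
        have h8 : tot f (Nat.succ p) q ≠ 0 := by
          intro h9
          exact h (by rw [h9]; exact Nat.mul_zero _)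
        have hpq : ¬ p ∣ q := fun h9 => h7 (Nat.mod_eq_zero_of_dvd h9)
        rw [ih (Nat.succ p) q (by omega) hq1 (fun r hr hrq => by
          have h9 := hqq r hr hrq
          rcases Nat.lt_or_ge p r with h10 | h10
          · exact h10
          · exact absurd (le_antisymm h10 h9 ▸ hrq) hpq) h8, hmq]
        exact (Nat.totient_mul_of_prime_of_not_dvd hpp hpq).symm
    · rw [show Nat.beq (Nat.mod m p) 0 = false by
        rw [← Bool.not_eq_true, Nat.beq_eq]; exact h3] at h ⊢
      simp only [cond_false] at h ⊢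
      refine ih (Nat.succ p) m (by omega) hm (fun r hr hrm => ?_) h
      have h9 := hq r hr hrm
      rcases Nat.lt_or_ge p r with h10 | h10
      · exact h10
      · exact absurd (Nat.mod_eq_zero_of_dvd (le_antisymm h10 h9 ▸ hrm)) h3

/-- the statement to be checked for `k` -/
def Good (k : ℕ) : Prop := ¬ (k * (k + 1) ^ Nat.totient (7588 - k) + 1).Prime

/-- the check with a factor -/
def small (k p : ℕ) : Bool :=
  force (tot 200 2 (Nat.sub 7588 k)) fun e =>
    force (Nat.succ (Nat.mul k (Nat.pow (Nat.succ k) e))) fun N =>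
      and (Nat.beq (Nat.mod N p) 0) (and (Nat.ble 2 p) (and (Nat.ble (Nat.succ p) N) (Nat.ble 1 e)))

theorem good_of_small {k p : ℕ} (hk : k < 7588) (h : small k p = true) : Good k := by
  unfold small at h
  simp only [force_eq] at h
  simp only [Bool.and_eq_true, Nat.beq_eq, Nat.ble_eq] at h
  obtain ⟨h1, h2, h3, h4⟩ := h
  have ht := tot_eq 200 2 (7588 - k) le_rfl (by omega) (fun q hq _ => hq.two_le)
    (Nat.one_le_iff_ne_zero.1 h4)
  have ht' : tot 200 2 (Nat.sub 7588 k) = Nat.totient (7588 - k) := ht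
  rw [ht'] at h1 h3
  intro hp
  have h5 : p ∣ k * (k + 1) ^ Nat.totient (7588 - k) + 1 := Nat.dvd_of_mod_eq_zero h1
  rcases (Nat.dvd_prime hp).1 h5 with h6 | h6
  · omega
  · exact absurd h3 (by rw [h6]; exact Nat.not_succ_le_self _)

/-- the check with Fermat's test -/
def fermat (k : ℕ) : Bool :=
  force (tot 200 2 (Nat.sub 7588 k)) fun e =>
    force (Nat.mul k (Nat.pow (Nat.succ k) e)) fun E =>
      force (Nat.succ E) fun N =>
        and (and (Nat.ble 1 e) (Nat.beq (Nat.mod N 2) 1))
          (Bool.not (Nat.beq (Nat.mod (loop N E (Nat.succ (Nat.div (Nat.log2 E) 8)) 1) N) 1))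

theorem good_of_fermat {k : ℕ} (hk : k < 7588) (h : fermat k = true) : Good k := by
  unfold fermat at h
  simp only [force_eq] at h
  simp only [Bool.and_eq_true, Bool.not_eq_true', Nat.beq_eq, Nat.ble_eq] at h
  obtain ⟨⟨h4, h2⟩, h3⟩ := h
  have ht := tot_eq 200 2 (7588 - k) le_rfl (by omega) (fun q hq _ => hq.two_le)
    (Nat.one_le_iff_ne_zero.1 h4)
  have ht' : tot 200 2 (Nat.sub 7588 k) = Nat.totient (7588 - k) := ht
  rw [ht'] at h2 h3
  set E : ℕ := k * (k + 1) ^ Nat.totient (7588 - k) with hE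
  have hE' : Nat.mul k (Nat.pow (Nat.succ k) (Nat.totient (7588 - k))) = E := rfl
  rw [hE'] at h2 h3
  intro hp
  rw [← Bool.not_eq_true, Nat.beq_eq] at h3
  apply h3
  have h5 : E < 2 ^ (8 * Nat.succ (Nat.div (Nat.log2 E) 8)) := by
    have h6 : E < 2 ^ (Nat.log2 E + 1) := Nat.lt_log2_self
    refine lt_of_lt_of_le h6 (Nat.pow_le_pow_right (by norm_num) ?_)
    change Nat.log2 E + 1 ≤ 8 * (Nat.log2 E / 8 + 1)
    omega
  have h7 := loop_eq (N := Nat.succ E) h5
  have h8 : (2 : ℕ) ^ E ≡ 1 [MOD Nat.succ E] := by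
    have h9 : Nat.Coprime 2 (Nat.succ E) := by
      rw [Nat.coprime_two_left, Nat.odd_iff]
      exact h2
    have h10 := Nat.ModEq.pow_totient h9
    have h11 : Nat.totient (Nat.succ E) = E := by
      have := Nat.totient_prime hp
      exact this
    rwa [h11] at h10
  have h12 := h7.trans h8
  have h13 : loop (Nat.succ E) E (Nat.succ (Nat.div (Nat.log2 E) 8)) 1 % Nat.succ E
      = 1 % Nat.succ E := h12
  have h14 : 1 % Nat.succ E = 1 := Nat.mod_eq_of_lt (by have := hp.two_le; omega)
  rw [h14] at h13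
  exact h13

/-! ### The test in several stages -/

/-- `c` steps of the powering, with the digits of `E` of index `b + c - 1, …, b` -/
def part (N E b : ℕ) : ℕ → ℕ → ℕ :=
  Nat.rec (fun acc => acc) (fun i ih acc => force (step N E (Nat.add b i) acc) ih)

theorem part_zero (N E b acc : ℕ) : part N E b 0 acc = acc := rfl

theorem part_succ (N E b c acc : ℕ) :
    part N E b (c + 1) acc = part N E b c (step N E (b + c) acc) := force_eq _ _

theorem loop_part (N E b : ℕ) : ∀ c acc : ℕ, loop N E b (part N E b c acc) = loop N E (b + c) acc := by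
  intro c
  induction c with
  | zero => intro acc; rfl
  | succ c ih =>
    intro acc
    rw [part_succ, ih, ← Nat.add_assoc, loop_succ]

/-- the exponent `k (k + 1) ^ φ(7588 - k)` -/
def ex (k : ℕ) : ℕ := k * (k + 1) ^ Nat.totient (7588 - k)

/-- a check for the modulus `N` and the exponent `E` of `k` -/
def withN (k : ℕ) (f : ℕ → ℕ → Bool) : Bool :=
  force (tot 200 2 (Nat.sub 7588 k)) fun e =>
    force (Nat.mul k (Nat.pow (Nat.succ k) e)) fun E =>
      and (Nat.ble 1 e) (f (Nat.succ E) E)

theorem withN_eq {k : ℕ} (hk : k < 7588) {f : ℕ → ℕ → Bool} (h : withN k f = true) :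
    f (ex k + 1) (ex k) = true := by
  unfold withN at h
  simp only [force_eq] at h
  simp only [Bool.and_eq_true, Nat.ble_eq] at h
  obtain ⟨h4, h2⟩ := h
  have ht := tot_eq 200 2 (7588 - k) le_rfl (by omega) (fun q hq _ => hq.two_le)
    (Nat.one_le_iff_ne_zero.1 h4)
  have ht' : tot 200 2 (Nat.sub 7588 k) = Nat.totient (7588 - k) := ht
  rw [ht'] at h2
  exact h2

/-- the number of steps -/
def len (E : ℕ) : ℕ := Nat.succ (Nat.div (Nat.log2 E) 8)

/-- after the steps down to the index `b` the value is `v` -/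
def At (k b v : ℕ) : Prop := loop (ex k + 1) (ex k) b v = loop (ex k + 1) (ex k) (len (ex k)) 1

/-- the first stage, of `c` steps -/
def chk0 (k b c w : ℕ) : Bool :=
  withN k fun N E => and (Nat.beq (Nat.add b c) (len E)) (Nat.beq (part N E b c 1) w)

/-- a middle stage: `c` steps from the value `v` at the index `b + c` to the value `w` at the index `b` -/
def chk1 (k b c v w : ℕ) : Bool :=
  withN k fun N E => Nat.beq (part N E b c v) w

/-- the last stage, of `c` steps -/
def chkf (k c v : ℕ) : Bool :=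
  withN k fun N E => and (Nat.beq (Nat.mod N 2) 1) (Bool.not (Nat.beq (Nat.mod (loop N E c v) N) 1))

theorem at_of_chk0 {k b c w : ℕ} (hk : k < 7588) (h : chk0 k b c w = true) : At k b w := by
  have h1 := withN_eq hk h
  simp only [Bool.and_eq_true, Nat.beq_eq] at h1
  obtain ⟨h2, h3⟩ := h1
  unfold At
  rw [← h3, loop_part, ← h2]
  rfl

theorem at_of_chk1 {k b c v w : ℕ} (hk : k < 7588) (hv : At k (b + c) v)
    (h : chk1 k b c v w = true) : At k b w := by
  have h1 := withN_eq hk h
  simp only [Nat.beq_eq] at h1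
  unfold At
  rw [← h1, loop_part]
  exact hv

theorem good_of_chkf {k c v : ℕ} (hk : k < 7588) (hv : At k c v) (h : chkf k c v = true) :
    Good k := by
  have h1 := withN_eq hk h
  simp only [Bool.and_eq_true, Bool.not_eq_true', Nat.beq_eq] at h1
  obtain ⟨h2, h3⟩ := h1
  intro hp
  change (ex k + 1).Prime at hp
  rw [← Bool.not_eq_true, Nat.beq_eq] at h3
  apply h3
  have h5 : ex k < 2 ^ (8 * len (ex k)) := by
    have h6 : ex k < 2 ^ (Nat.log2 (ex k) + 1) := Nat.lt_log2_self
    refine lt_of_lt_of_le h6 (Nat.pow_le_pow_right (by norm_num) ?_)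
    change Nat.log2 (ex k) + 1 ≤ 8 * (Nat.log2 (ex k) / 8 + 1)
    omega
  have h7 := loop_eq (N := ex k + 1) h5
  rw [← hv] at h7
  have h8 : (2 : ℕ) ^ ex k ≡ 1 [MOD ex k + 1] := by
    have h9 : Nat.Coprime 2 (ex k + 1) := by
      rw [Nat.coprime_two_left, Nat.odd_iff]
      exact h2
    have h10 := Nat.ModEq.pow_totient h9
    have h11 : Nat.totient (ex k + 1) = ex k := by
      have := Nat.totient_prime hp
      exact this
    rwa [h11] at h10
  have h12 := h7.trans h8
  have h13 : loop (ex k + 1) (ex k) c v % (ex k + 1) = 1 % (ex k + 1) := h12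
  have h14 : 1 % (ex k + 1) = 1 := Nat.mod_eq_of_lt (by have := hp.two_le; omega)
  rw [h14] at h13
  exact h13

theorem good_nil : ∀ k ∈ ([] : List ℕ), k < 7588 → Good k := fun _ hk => absurd hk List.not_mem_nil

theorem good_cons {a : ℕ} {l : List ℕ} (h : Good a) (hl : ∀ k ∈ l, k < 7588 → Good k) :
    ∀ k ∈ a :: l, k < 7588 → Good k := by
  intro k hk hk'
  rcases List.mem_cons.1 hk with h1 | h1
  · exact h1 ▸ h
  · exact hl k h1 hk'

theorem good_append {l m : List ℕ} (hl : ∀ k ∈ l, k < 7588 → Good k)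
    (hm : ∀ k ∈ m, k < 7588 → Good k) : ∀ k ∈ l ++ m, k < 7588 → Good k := by
  intro k hk
  rcases List.mem_append.1 hk with h | h
  · exact hl k h
  · exact hm k h

/-- the certificate: for `k`, `k + 1`, … either a factor or `0`, and then the head of the second list is
`k` -/
def master (l : List ℕ) : ℕ → List ℕ → Bool :=
  List.rec (fun k _ => Nat.beq k 7588)
    (fun p _ ih k fl => bif Nat.beq p 0 then
        (List.rec false (fun f fs _ => and (Nat.beq f k) (ih (Nat.succ k) fs)) fl : Bool)
      else and (small k p) (ih (Nat.succ k) fl)) l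

theorem good_of_master : ∀ (l : List ℕ) (k₀ : ℕ) (fl : List ℕ), master l k₀ fl = true →
    (∀ f ∈ fl, f < 7588 → Good f) → ∀ k, k₀ ≤ k → k < 7588 → Good k := by
  intro l
  induction l with
  | nil =>
    intro k₀ fl h _ k h1 h2
    have h' : Nat.beq k₀ 7588 = true := h
    rw [Nat.beq_eq] at h'
    omega
  | cons p l ih =>
    intro k₀ fl h hf k h1 h2
    rcases Nat.eq_zero_or_pos p with h3 | h3
    · subst h3
      cases fl with
      | nil => exact absurd (show false = true from h) (by decide)
      | cons f fs =>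
        have h' : (Nat.beq f k₀ && master l (Nat.succ k₀) fs) = true := h
        rw [Bool.and_eq_true, Nat.beq_eq] at h'
        rcases Nat.eq_or_lt_of_le h1 with h4 | h4
        · subst h4
          exact hf k₀ (by rw [← h'.1]; exact List.mem_cons_self) h2
        · exact ih (Nat.succ k₀) fs h'.2 (fun g hg => hf g (List.mem_cons_of_mem _ hg)) k h4 h2
    · have h5 : Nat.beq p 0 = false := by
        rw [← Bool.not_eq_true, Nat.beq_eq]; omega
      have h' : (bif Nat.beq p 0 then
        (List.rec false (fun f fs _ => and (Nat.beq f k₀) (master l (Nat.succ k₀) fs)) fl : Bool)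
          else and (small k₀ p) (master l (Nat.succ k₀) fl)) = true := h
      rw [h5] at h'
      simp only [cond_false, Bool.and_eq_true] at h'
      rcases Nat.eq_or_lt_of_le h1 with h4 | h4
      · subst h4
        exact good_of_small h2 h'.1
      · exact ih (Nat.succ k₀) fl h'.2 hf k h4 h2

end Pool.Agent.K7.H55.PL
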