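import Pool.Agent.K7.H55.PL.Basic

set_option autoImplicit false
set_option maxRecDepth 100000

namespace Pool.Agent.K7.H55.PL

noncomputable def w5595_1 : ℕ := 0x1630dc1b1d24c2fb222259b8b70703f20147de278b19f1bcbb9092c2b05f9bfb010612c8686b2defe9d95ca6f690a64f590f406d53f196c434ce6605c3468505789785de3ee58954fc8aba1666799ecf217f9c4fa36b53732851962ef91649bb0cdb32b682a30a050c957ea7b24ac9588e1ae6d4191bbe080bcd2d133c5c9a8574338218a4d221f08f4da0bd9ae74ead53305c0a1a43f52f31b9f03f3d640ebc3d4716434bf9ae4db1b816c87fb05dc6102f54c4ad9e54978096a86949583198a8cfdd000f5f63034b1c4c1cdf25b56271ab5940fb5f89971fada8000f720dc8a76b6ad8a5a845090d04c8c6f473fd21e5beb60d816b853919470767299b59e5fd72a2a818307a95cab500debbb908e157b07e7349b35dc8ff3cd0702b37b0c8220e5e4eb7559ff2f60afbb239c0412b6360cd2244f3850e4a2489e4e7874904e12d6576a7493a1a2d621c67caa3b180699a3c5b1126d57988d8453769da448bcbd568f496ab52c5e708bc42955d37e331916027d487eeb6f26884fb0d52bd7a39adf2278e064dea547f699994abb9d4fc3b3e0e9791475f6b3d249db66b553e486f7d0c6309af496e267e77ccab3afe565dccd150800e62602cd02452333c9392f4e174439c5f65f40e81546f6dc836afda6307e90c361eca0b403fb44e90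c5ed5e6eda3c7d399788e98ec729a17f076138c577427e6d186fcb3987c4c28b1447bdd74c025aa27ea047d08e501812ceb8bc81bce8eec93d5f65f37fc38a6543a11b2f4d494b761b7002845d243b960ced57d780d021f5023f1a4b732f51ea3279035d3bd56243bc180f1be61298c1cd896840c09db23490b48511aaea4142828f27cbe06a1d6b9200795ad6effdad22b0da3554a29e2a1101352b82deaa1205ffce622fe8c4d3b5232d4494ca7305c7952aa6cc86d79cd3853722658c39a00b65842b2df0961060c1d106afc68211ac961576f1fb0478531b8c50d4392d8b2f17d02a774a1fa89e50718aa596bebd4d98895e1995f463f97c33867b7e3171680bdad7fab503eb60f017d3954b20b609927ca776b2752c30614483393cb188da97b352c0ded55d9d86a3896ec6b6b4228e3f7a89b292375b7c3017e105125b0576e0ebfb7c9170fff4eec9faaec4371ef656f8785e66e3a8cf6e1681d53da0d51ad4b816d0aa6dc277410cd715fc620065d3ae363cfa4c8cbf04fd46b1ddd589ff108b2418bdfab699ef4913bbd7b63064977e00d92acd7aa7b28e22c08447f68ae94872b2a106b9668a79e3ed62eb7025a8f036ca7b74e48bb33a9cb2accd8995d741e5622655f0d23877da1a0248010dc7ed7a420f55d50f086f84efc9a4c0958969d4a117215397e25a5c28c2a7fd3a93d012357233892f755a7c49a87e1451f5d6f4b6351b69586ff4f2e67549036ae843ad02359523d19b0f36c9f08809f292503ebca90d2734ea22f5d454ae9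116c05be51a2b8c4f3825b016e314ca2981f3c02256b69b0761ea4d23bb34793cf8b8a53b73f8cb939dc21b37017ec066029ac37d9f5ef1211c2e69d487e1ad7faba37a3769b235ab1bf1cf05fcdc217999c3b62236073382a4ba92034feb7b9fddc3d9178af3dbf505f6c3accfd5bfbef7ed132c704e3acaa2b15f3b9d0b0ef5973def3dd4e124f2da0d0c3d21cbc0528ea1b9107d645c47efb477d21ccae03782af503e543cc4e6b4c3fe39db231ca6501eb94db8e5781eb45611c77a8cb89ead33c21658f8357df050810fce3dd707bf25eec549eca0bbe08e0335bac670784e4030b866daf078171362e27f0efb94f927bfa8220049cd3c917f219a60e6c817bab1218c9db4e5ad8baed24b447634dfd3689d852bc3f7351a20245d7809072ea87cd8302bacd6afb291fe9b108d7e1021adde69b0ec77e58359f1749586653fbd91b431f1d895ea36d81314acd81cbe250cee516ec725cab633e6718b1c619c1e312fed0cdb80d17656ba72689a8d813e45332a2189579d747a1e0afe50181848751c9bfcceb25e302a272dad089057cbd1b8ce069c34c6b8d0bd8a47b1f67257fcce9b58faa39e4f42ac040b6b7fdd7bf021822e05c28ffb2face1a34839f49f9e12b57f236006c0a296198fd0e1b9fbb8809a2dfaa2b178b93cd6ee783e963484cc9b186d8509abfa4986decca7e1e1f6dff680ea91a4282f2ec5ae270f515466f97a9b5cd0cb028683f26a3335d1187965748b45545cab898a2d7ba297caaeb2918a2dd205c909b79c4a18b915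e063117cb789c649735c62f2dc4b9f3f84f630092eed0a77634922ee1068c80c31ff0a227ff16f165e984c26334e21e85bc150a7dfc6881f2863b5875bc208c45652fac08164bf5450598324ca2331437e25d02cae99fe44a2738025379a88b6a5725b15d8d4978a78fce1675c69d0d5dc2b797d532f78a55487e61a3a4140ba098007384464dfca2dbab16f13343a9c599f25656e71549fa3ab3b40bb222dd55544be3413c0184cf2409e2c79a357d1c1c79af0f8e72ae2b8e59ff459eeca2ceca12c7e246466322ebe037520c1129da26be6d1c59f27a203340fd32f4c79dafeb1e9756d4f6eddc4dca262b7824c5f0d414039db1ec7eda2a6aa9c995aa0b7120fb558474669327334940470fa94790cfddcf984e6cb56ff524f5829bb44a4a7a7d0a4dceecd2136b936d63bf537dca1f5151ac3a494165bd788bed0e8e8a76f416b03dfb3117bc37781fa37e09bd01a3b3f909be84cce302ee2ebad94dd3012cec4958847b99af4e7b5299730948df72e9daffdc8ca906b9180781fe02641f6e38168e0f4fc27e79ceeeef8421e45ee48eecda910c6e94a34b3d3240466759a1171670cef32a968bd652a8bf349aa6eba374fec610285b25c9f66103c291af35779f4719e5c27e6f37ef7e0a35af29c7d0f0c4ebf25c3c1ae3d2d80bb8f2d46a1f8739dd175a81d27ac0b111a5700747f850250cfe924949a9cafef221fe5d84885d4cf6e2a8c853563161ad491c3de846762305c2a927caa7b14adfbb802a239a345b11f99794621a16d1164e2377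fe7ba3ecbddafd88ab5f1d5eb5709565b910c19890e2292a2f4269dfe0dad84036ba8e0779f40f217b028fb3bd9163e348af2a581df1efac3af110e0c462dad000b0bf89e7c05d8c666961b0d05830bcc0016902b0c0e493afebfd430f88a9c083d9d9d29cdd479dcbb9ddf98d68b6f37c568d20d372377e660e20a6efb1027c2a1436ea7e8ade666b426f844b279abc45be681eda969dae05dc3c3c497d31dcaddab8863b28652d3ad8fadec75155adec30508ef4dbc8b30b1c7aa4e9a2f22870605f86442f4d47acc30074dced4a3dd3193242b205c42e34d37493fb1d070a4ec8c1f5a838f9902a85731eff5b1b02116ea96fbc2597dae281de6016503d130eb9e143fe85d728be7744752ca51361b58347eeda338791ef8d72cf1eb53eb9a593e3c9126dde1f69a8956bf3cdfbc2c8cb0e96f981a6e0f23d11cfd261d9e3705ce59213ed72abc4f64191c0374dfa585055abc003ddd326ab1963a09f757d98954074b4c8ed773a8a93b2e23ee73fa2d50ed6c87f4603b67e05f33d706dfa26973c2ac748d31561babf9b81516a07dcff08b100d50a6797251572fc40032e0080b6e043ed377b84e787b16802e45469acffe176841ee01ad009709106aa175d957181a5a1eea449dbd30befac1263d78378a8e40e42bf842a5af2c9228f05507a5cd0e03b4f7d963e73fa352616220326a6482a3818a743625257434e5365cdf23b2850aff4738ced0a67e0f5fad626de85b7fd4564cc1ea45078fffac5a2c47700ad2d4243e55e2f4def834415e2b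9d42d57a2ee92ea78edb40917c351ad8ab98b9ca81c822c280d3ce82152007d293218f85590aa2bb99c7e84b35a98693f6657216aa114e3d2a482ea2d9f5a8771fb1f146ceac51026b156128829493f2c94588542f3812cbe11ca0b73cd1170d9bb881df827d11466594e4431ad722df7b20771108739187452c34269cc8596a49175a4f6a73e5aaad5832696ea3082b372b8f06cec02b77beb59658cdbb1741ad62e3988def91df19fe6332fa86b9a95d526b03220201c54a4bab360dcc2c3b95689ea8028f529c5cf022671068d961fdb1c07d122f06d9b612ca1bc61c44cd37732df807056019a850aa3e8f72a467d5cba50f0ba82d816950f01cea13ab8cc43e6d6c71dc25610fc5a95227b60c3d4422c11930ee76d7eb35a9f4050566afd4f0cbe87364f4aaeab9f2a96894d136f15648383affbf9ad737fc3863d080b4dd02198155a513bcf946aeaa36cbdad126bc5845d6f89fdefdc208a6b9667a94d9906e6a9d95baf58bfca2cb8cc4133be02985ceeeb3fc03309271bfc6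

def L59 : List ℕ := [5547, 5556, 5558, 5560, 5563, 5576, 5583, 5584, 5595, 5618, 5626, 5641, 5642, 5701, 5731, 5750, 5761, 5765, 5795, 5802, 5811, 5812, 5817, 5818, 5839, 5840, 5854, 5883, 5894, 5904, 5910, 5915, 5929, 5941, 5944, 5965, 5993, 6004, 6007, 6010, 6018, 6022, 6028, 6031, 6040, 6043, 6055, 6057, 6058, 6070, 6075, 6094, 6097, 6098, 6100, 6103, 6104, 6106, 6126, 6138, 6142, 6171, 6187, 6191, 6210, 6215, 6218, 6220, 6224, 6228, 6235, 6240, 6252, 6255, 6262, 6270, 6272, 6274, 6275, 6284, 6293, 6302, 6325, 6327, 6348, 6349, 6357, 6361, 6363, 6364, 6365, 6367, 6371, 6392, 6409, 6412, 6417, 6425, 6438, 6440, 6445, 6454, 6455, 6457, 6463, 6480, 6483, 6488, 6492, 6493, 6505, 6514, 6518, 6522, 6525, 6527, 6531, 6532, 6540, 6543, 6547, 6550, 6560, 6567, 6572, 6592, 6599, 6607, 6611, 6619, 6622, 6623, 6625, 6640, 6643, 6648, 6662, 6673, 6674, 6685, 6689, 6710, 6720, 6725, 6730, 6744, 6754, 6779, 6796, 6816, 6818, 6822, 6838, 6844, 6849, 6876, 6883, 6886, 6902, 6903, 6907, 6927, 6928, 6929, 6932, 6938, 6951, 6968, 6972, 6975, 6977, 6978, 6983, 6994, 7000, 7002, 7018, 7019, 7020, 7025, 7033, 7039, 7058, 7064,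 7067, 7070, 7072, 7073, 7076, 7092, 7093, 7096, 7098, 7102, 7103, 7105, 7107, 7112, 7129, 7133, 7142, 7146, 7152, 7161, 7169, 7171, 7207, 7208, 7212, 7216, 7225, 7238, 7266, 7273, 7275, 7277, 7279, 7284, 7289, 7296, 7320, 7325, 7329, 7334, 7341, 7347, 7360, 7362, 7375, 7381, 7396, 7405, 7406, 7411, 7413, 7414, 7415, 7417, 7418, 7431, 7435, 7441, 7451, 7455, 7458, 7473, 7478, 7491, 7492, 7500, 7512, 7514, 7529, 7532, 7540, 7568]

theorem G59 : ∀ k ∈ L59, k < 7588 → Good k := by
  have g5547 : Good 5547 := good_of_fermat (by norm_num) (by decide +kernel)
  have g5556 : Good 5556 := good_of_fermat (by norm_num) (by decide +kernel)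
  have g5558 : Good 5558 := good_of_fermat (by norm_num) (by decide +kernel)
  have g5560 : Good 5560 := good_of_fermat (by norm_num) (by decide +kernel)
  have g5563 : Good 5563 := good_of_fermat (by norm_num) (by decide +kernel)
  have g5576 : Good 5576 := good_of_fermat (by norm_num) (by decide +kernel)
  have g5583 : Good 5583 := good_of_fermat (by norm_num) (by decide +kernel)
  have g5584 : Good 5584 := good_of_fermat (by norm_num) (by decide +kernel)
  have a5595_1 : At 5595 1551 w5595_1 := at_of_chk0 (c := 1551) (by norm_num) (by decide +kernel)
  have g5595 : Good 5595 := good_of_chkf (by norm_num) a5595_1 (by decide +kernel)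
  have g5618 : Good 5618 := good_of_fermat (by norm_num) (by decide +kernel)
  have g5626 : Good 5626 := good_of_fermat (by norm_num) (by decide +kernel)
  have g5641 : Good 5641 := good_of_fermat (by norm_num) (by decide +kernel)
  have g5642 : Good 5642 := good_of_fermat (by norm_num) (by decide +kernel)
  have g5701 : Good 5701 := good_of_fermat (by norm_num) (by decide +kernel)
  have g5731 : Good 5731 := good_of_fermat (by norm_num) (by decide +kernel)
  have g5750 : Good 5750 := good_of_fermat (by norm_num) (by decide +kernel)
  have g5761 : Good 5761 := good_of_fermat (by norm_num) (by decide +kernel)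
  have g5765 : Good 5765 := good_of_fermat (by norm_num) (by decide +kernel)
  have g5795 : Good 5795 := good_of_fermat (by norm_num) (by decide +kernel)
  have g5802 : Good 5802 := good_of_fermat (by norm_num) (by decide +kernel)
  have g5811 : Good 5811 := good_of_fermat (by norm_num) (by decide +kernel)
  have g5812 : Good 5812 := good_of_fermat (by norm_num) (by decide +kernel)
  have g5817 : Good 5817 := good_of_fermat (by norm_num) (by decide +kernel)
  have g5818 : Good 5818 := good_of_fermat (by norm_num) (by decide +kernel)
  have g5839 : Good 5839 := good_of_fermat (by norm_num) (by decide +kernel)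
  have g5840 : Good 5840 := good_of_fermat (by norm_num) (by decide +kernel)
  have g5854 : Good 5854 := good_of_fermat (by norm_num) (by decide +kernel)
  have g5883 : Good 5883 := good_of_fermat (by norm_num) (by decide +kernel)
  have g5894 : Good 5894 := good_of_fermat (by norm_num) (by decide +kernel)
  have g5904 : Good 5904 := good_of_fermat (by norm_num) (by decide +kernel)
  have g5910 : Good 5910 := good_of_fermat (by norm_num) (by decide +kernel)
  have g5915 : Good 5915 := good_of_fermat (by norm_num) (by decide +kernel)
  have g5929 : Good 5929 := good_of_fermat (by norm_num) (by decide +kernel)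
  have g5941 : Good 5941 := good_of_fermat (by norm_num) (by decide +kernel)
  have g5944 : Good 5944 := good_of_fermat (by norm_num) (by decide +kernel)
  have g5965 : Good 5965 := good_of_fermat (by norm_num) (by decide +kernel)
  have g5993 : Good 5993 := good_of_fermat (by norm_num) (by decide +kernel)
  have g6004 : Good 6004 := good_of_fermat (by norm_num) (by decide +kernel)
  have g6007 : Good 6007 := good_of_fermat (by norm_num) (by decide +kernel)
  have g6010 : Good 6010 := good_of_fermat (by norm_num) (by decide +kernel)
  have g6018 : Good 6018 := good_of_fermat (by norm_num) (by decide +kernel)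
  have g6022 : Good 6022 := good_of_fermat (by norm_num) (by decide +kernel)
  have g6028 : Good 6028 := good_of_fermat (by norm_num) (by decide +kernel)
  have g6031 : Good 6031 := good_of_fermat (by norm_num) (by decide +kernel)
  have g6040 : Good 6040 := good_of_fermat (by norm_num) (by decide +kernel)
  have g6043 : Good 6043 := good_of_fermat (by norm_num) (by decide +kernel)
  have g6055 : Good 6055 := good_of_fermat (by norm_num) (by decide +kernel)
  have g6057 : Good 6057 := good_of_fermat (by norm_num) (by decide +kernel)
  have g6058 : Good 6058 := good_of_fermat (by norm_num) (by decide +kernel)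
  have g6070 : Good 6070 := good_of_fermat (by norm_num) (by decide +kernel)
  have g6075 : Good 6075 := good_of_fermat (by norm_num) (by decide +kernel)
  have g6094 : Good 6094 := good_of_fermat (by norm_num) (by decide +kernel)
  have g6097 : Good 6097 := good_of_fermat (by norm_num) (by decide +kernel)
  have g6098 : Good 6098 := good_of_fermat (by norm_num) (by decide +kernel)
  have g6100 : Good 6100 := good_of_fermat (by norm_num) (by decide +kernel)
  have g6103 : Good 6103 := good_of_fermat (by norm_num) (by decide +kernel)
  have g6104 : Good 6104 := good_of_fermat (by norm_num) (by decide +kernel)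
  have g6106 : Good 6106 := good_of_fermat (by norm_num) (by decide +kernel)
  have g6126 : Good 6126 := good_of_fermat (by norm_num) (by decide +kernel)
  have g6138 : Good 6138 := good_of_fermat (by norm_num) (by decide +kernel)
  have g6142 : Good 6142 := good_of_fermat (by norm_num) (by decide +kernel)
  have g6171 : Good 6171 := good_of_fermat (by norm_num) (by decide +kernel)
  have g6187 : Good 6187 := good_of_fermat (by norm_num) (by decide +kernel)
  have g6191 : Good 6191 := good_of_fermat (by norm_num) (by decide +kernel)
  have g6210 : Good 6210 := good_of_fermat (by norm_num) (by decide +kernel)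
  have g6215 : Good 6215 := good_of_fermat (by norm_num) (by decide +kernel)
  have g6218 : Good 6218 := good_of_fermat (by norm_num) (by decide +kernel)
  have g6220 : Good 6220 := good_of_fermat (by norm_num) (by decide +kernel)
  have g6224 : Good 6224 := good_of_fermat (by norm_num) (by decide +kernel)
  have g6228 : Good 6228 := good_of_fermat (by norm_num) (by decide +kernel)
  have g6235 : Good 6235 := good_of_fermat (by norm_num) (by decide +kernel)
  have g6240 : Good 6240 := good_of_fermat (by norm_num) (by decide +kernel)
  have g6252 : Good 6252 := good_of_fermat (by norm_num) (by decide +kernel)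
  have g6255 : Good 6255 := good_of_fermat (by norm_num) (by decide +kernel)
  have g6262 : Good 6262 := good_of_fermat (by norm_num) (by decide +kernel)
  have g6270 : Good 6270 := good_of_fermat (by norm_num) (by decide +kernel)
  have g6272 : Good 6272 := good_of_fermat (by norm_num) (by decide +kernel)
  have g6274 : Good 6274 := good_of_fermat (by norm_num) (by decide +kernel)
  have g6275 : Good 6275 := good_of_fermat (by norm_num) (by decide +kernel)
  have g6284 : Good 6284 := good_of_fermat (by norm_num) (by decide +kernel)
  have g6293 : Good 6293 := good_of_fermat (by norm_num) (by decide +kernel)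
  have g6302 : Good 6302 := good_of_fermat (by norm_num) (by decide +kernel)
  have g6325 : Good 6325 := good_of_fermat (by norm_num) (by decide +kernel)
  have g6327 : Good 6327 := good_of_fermat (by norm_num) (by decide +kernel)
  have g6348 : Good 6348 := good_of_fermat (by norm_num) (by decide +kernel)
  have g6349 : Good 6349 := good_of_fermat (by norm_num) (by decide +kernel)
  have g6357 : Good 6357 := good_of_fermat (by norm_num) (by decide +kernel)
  have g6361 : Good 6361 := good_of_fermat (by norm_num) (by decide +kernel)
  have g6363 : Good 6363 := good_of_fermat (by norm_num) (by decide +kernel)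
  have g6364 : Good 6364 := good_of_fermat (by norm_num) (by decide +kernel)
  have g6365 : Good 6365 := good_of_fermat (by norm_num) (by decide +kernel)
  have g6367 : Good 6367 := good_of_fermat (by norm_num) (by decide +kernel)
  have g6371 : Good 6371 := good_of_fermat (by norm_num) (by decide +kernel)
  have g6392 : Good 6392 := good_of_fermat (by norm_num) (by decide +kernel)
  have g6409 : Good 6409 := good_of_fermat (by norm_num) (by decide +kernel)
  have g6412 : Good 6412 := good_of_fermat (by norm_num) (by decide +kernel)
  have g6417 : Good 6417 := good_of_fermat (by norm_num) (by decide +kernel)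
  have g6425 : Good 6425 := good_of_fermat (by norm_num) (by decide +kernel)
  have g6438 : Good 6438 := good_of_fermat (by norm_num) (by decide +kernel)
  have g6440 : Good 6440 := good_of_fermat (by norm_num) (by decide +kernel)
  have g6445 : Good 6445 := good_of_fermat (by norm_num) (by decide +kernel)
  have g6454 : Good 6454 := good_of_fermat (by norm_num) (by decide +kernel)
  have g6455 : Good 6455 := good_of_fermat (by norm_num) (by decide +kernel)
  have g6457 : Good 6457 := good_of_fermat (by norm_num) (by decide +kernel)
  have g6463 : Good 6463 := good_of_fermat (by norm_num) (by decide +kernel)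
  have g6480 : Good 6480 := good_of_fermat (by norm_num) (by decide +kernel)
  have g6483 : Good 6483 := good_of_fermat (by norm_num) (by decide +kernel)
  have g6488 : Good 6488 := good_of_fermat (by norm_num) (by decide +kernel)
  have g6492 : Good 6492 := good_of_fermat (by norm_num) (by decide +kernel)
  have g6493 : Good 6493 := good_of_fermat (by norm_num) (by decide +kernel)
  have g6505 : Good 6505 := good_of_fermat (by norm_num) (by decide +kernel)
  have g6514 : Good 6514 := good_of_fermat (by norm_num) (by decide +kernel)
  have g6518 : Good 6518 := good_of_fermat (by norm_num) (by decide +kernel)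
  have g6522 : Good 6522 := good_of_fermat (by norm_num) (by decide +kernel)
  have g6525 : Good 6525 := good_of_fermat (by norm_num) (by decide +kernel)
  have g6527 : Good 6527 := good_of_fermat (by norm_num) (by decide +kernel)
  have g6531 : Good 6531 := good_of_fermat (by norm_num) (by decide +kernel)
  have g6532 : Good 6532 := good_of_fermat (by norm_num) (by decide +kernel)
  have g6540 : Good 6540 := good_of_fermat (by norm_num) (by decide +kernel)
  have g6543 : Good 6543 := good_of_fermat (by norm_num) (by decide +kernel)
  have g6547 : Good 6547 := good_of_fermat (by norm_num) (by decide +kernel)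
  have g6550 : Good 6550 := good_of_fermat (by norm_num) (by decide +kernel)
  have g6560 : Good 6560 := good_of_fermat (by norm_num) (by decide +kernel)
  have g6567 : Good 6567 := good_of_fermat (by norm_num) (by decide +kernel)
  have g6572 : Good 6572 := good_of_fermat (by norm_num) (by decide +kernel)
  have g6592 : Good 6592 := good_of_fermat (by norm_num) (by decide +kernel)
  have g6599 : Good 6599 := good_of_fermat (by norm_num) (by decide +kernel)
  have g6607 : Good 6607 := good_of_fermat (by norm_num) (by decide +kernel)
  have g6611 : Good 6611 := good_of_fermat (by norm_num) (by decide +kernel)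
  have g6619 : Good 6619 := good_of_fermat (by norm_num) (by decide +kernel)
  have g6622 : Good 6622 := good_of_fermat (by norm_num) (by decide +kernel)
  have g6623 : Good 6623 := good_of_fermat (by norm_num) (by decide +kernel)
  have g6625 : Good 6625 := good_of_fermat (by norm_num) (by decide +kernel)
  have g6640 : Good 6640 := good_of_fermat (by norm_num) (by decide +kernel)
  have g6643 : Good 6643 := good_of_fermat (by norm_num) (by decide +kernel)
  have g6648 : Good 6648 := good_of_fermat (by norm_num) (by decide +kernel)
  have g6662 : Good 6662 := good_of_fermat (by norm_num) (by decide +kernel)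
  have g6673 : Good 6673 := good_of_fermat (by norm_num) (by decide +kernel)
  have g6674 : Good 6674 := good_of_fermat (by norm_num) (by decide +kernel)
  have g6685 : Good 6685 := good_of_fermat (by norm_num) (by decide +kernel)
  have g6689 : Good 6689 := good_of_fermat (by norm_num) (by decide +kernel)
  have g6710 : Good 6710 := good_of_fermat (by norm_num) (by decide +kernel)
  have g6720 : Good 6720 := good_of_fermat (by norm_num) (by decide +kernel)
  have g6725 : Good 6725 := good_of_fermat (by norm_num) (by decide +kernel)
  have g6730 : Good 6730 := good_of_fermat (by norm_num) (by decide +kernel)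
  have g6744 : Good 6744 := good_of_fermat (by norm_num) (by decide +kernel)
  have g6754 : Good 6754 := good_of_fermat (by norm_num) (by decide +kernel)
  have g6779 : Good 6779 := good_of_fermat (by norm_num) (by decide +kernel)
  have g6796 : Good 6796 := good_of_fermat (by norm_num) (by decide +kernel)
  have g6816 : Good 6816 := good_of_fermat (by norm_num) (by decide +kernel)
  have g6818 : Good 6818 := good_of_fermat (by norm_num) (by decide +kernel)
  have g6822 : Good 6822 := good_of_fermat (by norm_num) (by decide +kernel)
  have g6838 : Good 6838 := good_of_fermat (by norm_num) (by decide +kernel)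
  have g6844 : Good 6844 := good_of_fermat (by norm_num) (by decide +kernel)
  have g6849 : Good 6849 := good_of_fermat (by norm_num) (by decide +kernel)
  have g6876 : Good 6876 := good_of_fermat (by norm_num) (by decide +kernel)
  have g6883 : Good 6883 := good_of_fermat (by norm_num) (by decide +kernel)
  have g6886 : Good 6886 := good_of_fermat (by norm_num) (by decide +kernel)
  have g6902 : Good 6902 := good_of_fermat (by norm_num) (by decide +kernel)
  have g6903 : Good 6903 := good_of_fermat (by norm_num) (by decide +kernel)
  have g6907 : Good 6907 := good_of_fermat (by norm_num) (by decide +kernel)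
  have g6927 : Good 6927 := good_of_fermat (by norm_num) (by decide +kernel)
  have g6928 : Good 6928 := good_of_fermat (by norm_num) (by decide +kernel)
  have g6929 : Good 6929 := good_of_fermat (by norm_num) (by decide +kernel)
  have g6932 : Good 6932 := good_of_fermat (by norm_num) (by decide +kernel)
  have g6938 : Good 6938 := good_of_fermat (by norm_num) (by decide +kernel)
  have g6951 : Good 6951 := good_of_fermat (by norm_num) (by decide +kernel)
  have g6968 : Good 6968 := good_of_fermat (by norm_num) (by decide +kernel)
  have g6972 : Good 6972 := good_of_fermat (by norm_num) (by decide +kernel)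
  have g6975 : Good 6975 := good_of_fermat (by norm_num) (by decide +kernel)
  have g6977 : Good 6977 := good_of_fermat (by norm_num) (by decide +kernel)
  have g6978 : Good 6978 := good_of_fermat (by norm_num) (by decide +kernel)
  have g6983 : Good 6983 := good_of_fermat (by norm_num) (by decide +kernel)
  have g6994 : Good 6994 := good_of_fermat (by norm_num) (by decide +kernel)
  have g7000 : Good 7000 := good_of_fermat (by norm_num) (by decide +kernel)
  have g7002 : Good 7002 := good_of_fermat (by norm_num) (by decide +kernel)
  have g7018 : Good 7018 := good_of_fermat (by norm_num) (by decide +kernel)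
  have g7019 : Good 7019 := good_of_fermat (by norm_num) (by decide +kernel)
  have g7020 : Good 7020 := good_of_fermat (by norm_num) (by decide +kernel)
  have g7025 : Good 7025 := good_of_fermat (by norm_num) (by decide +kernel)
  have g7033 : Good 7033 := good_of_fermat (by norm_num) (by decide +kernel)
  have g7039 : Good 7039 := good_of_fermat (by norm_num) (by decide +kernel)
  have g7058 : Good 7058 := good_of_fermat (by norm_num) (by decide +kernel)
  have g7064 : Good 7064 := good_of_fermat (by norm_num) (by decide +kernel)
  have g7067 : Good 7067 := good_of_fermat (by norm_num) (by decide +kernel)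
  have g7070 : Good 7070 := good_of_fermat (by norm_num) (by decide +kernel)
  have g7072 : Good 7072 := good_of_fermat (by norm_num) (by decide +kernel)
  have g7073 : Good 7073 := good_of_fermat (by norm_num) (by decide +kernel)
  have g7076 : Good 7076 := good_of_fermat (by norm_num) (by decide +kernel)
  have g7092 : Good 7092 := good_of_fermat (by norm_num) (by decide +kernel)
  have g7093 : Good 7093 := good_of_fermat (by norm_num) (by decide +kernel)
  have g7096 : Good 7096 := good_of_fermat (by norm_num) (by decide +kernel)
  have g7098 : Good 7098 := good_of_fermat (by norm_num) (by decide +kernel)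
  have g7102 : Good 7102 := good_of_fermat (by norm_num) (by decide +kernel)
  have g7103 : Good 7103 := good_of_fermat (by norm_num) (by decide +kernel)
  have g7105 : Good 7105 := good_of_fermat (by norm_num) (by decide +kernel)
  have g7107 : Good 7107 := good_of_fermat (by norm_num) (by decide +kernel)
  have g7112 : Good 7112 := good_of_fermat (by norm_num) (by decide +kernel)
  have g7129 : Good 7129 := good_of_fermat (by norm_num) (by decide +kernel)
  have g7133 : Good 7133 := good_of_fermat (by norm_num) (by decide +kernel)
  have g7142 : Good 7142 := good_of_fermat (by norm_num) (by decide +kernel)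
  have g7146 : Good 7146 := good_of_fermat (by norm_num) (by decide +kernel)
  have g7152 : Good 7152 := good_of_fermat (by norm_num) (by decide +kernel)
  have g7161 : Good 7161 := good_of_fermat (by norm_num) (by decide +kernel)
  have g7169 : Good 7169 := good_of_fermat (by norm_num) (by decide +kernel)
  have g7171 : Good 7171 := good_of_fermat (by norm_num) (by decide +kernel)
  have g7207 : Good 7207 := good_of_fermat (by norm_num) (by decide +kernel)
  have g7208 : Good 7208 := good_of_fermat (by norm_num) (by decide +kernel)
  have g7212 : Good 7212 := good_of_fermat (by norm_num) (by decide +kernel)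
  have g7216 : Good 7216 := good_of_fermat (by norm_num) (by decide +kernel)
  have g7225 : Good 7225 := good_of_fermat (by norm_num) (by decide +kernel)
  have g7238 : Good 7238 := good_of_fermat (by norm_num) (by decide +kernel)
  have g7266 : Good 7266 := good_of_fermat (by norm_num) (by decide +kernel)
  have g7273 : Good 7273 := good_of_fermat (by norm_num) (by decide +kernel)
  have g7275 : Good 7275 := good_of_fermat (by norm_num) (by decide +kernel)
  have g7277 : Good 7277 := good_of_fermat (by norm_num) (by decide +kernel)
  have g7279 : Good 7279 := good_of_fermat (by norm_num) (by decide +kernel)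
  have g7284 : Good 7284 := good_of_fermat (by norm_num) (by decide +kernel)
  have g7289 : Good 7289 := good_of_fermat (by norm_num) (by decide +kernel)
  have g7296 : Good 7296 := good_of_fermat (by norm_num) (by decide +kernel)
  have g7320 : Good 7320 := good_of_fermat (by norm_num) (by decide +kernel)
  have g7325 : Good 7325 := good_of_fermat (by norm_num) (by decide +kernel)
  have g7329 : Good 7329 := good_of_fermat (by norm_num) (by decide +kernel)
  have g7334 : Good 7334 := good_of_fermat (by norm_num) (by decide +kernel)
  have g7341 : Good 7341 := good_of_fermat (by norm_num) (by decide +kernel)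
  have g7347 : Good 7347 := good_of_fermat (by norm_num) (by decide +kernel)
  have g7360 : Good 7360 := good_of_fermat (by norm_num) (by decide +kernel)
  have g7362 : Good 7362 := good_of_fermat (by norm_num) (by decide +kernel)
  have g7375 : Good 7375 := good_of_fermat (by norm_num) (by decide +kernel)
  have g7381 : Good 7381 := good_of_fermat (by norm_num) (by decide +kernel)
  have g7396 : Good 7396 := good_of_fermat (by norm_num) (by decide +kernel)
  have g7405 : Good 7405 := good_of_fermat (by norm_num) (by decide +kernel)
  have g7406 : Good 7406 := good_of_fermat (by norm_num) (by decide +kernel)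
  have g7411 : Good 7411 := good_of_fermat (by norm_num) (by decide +kernel)
  have g7413 : Good 7413 := good_of_fermat (by norm_num) (by decide +kernel)
  have g7414 : Good 7414 := good_of_fermat (by norm_num) (by decide +kernel)
  have g7415 : Good 7415 := good_of_fermat (by norm_num) (by decide +kernel)
  have g7417 : Good 7417 := good_of_fermat (by norm_num) (by decide +kernel)
  have g7418 : Good 7418 := good_of_fermat (by norm_num) (by decide +kernel)
  have g7431 : Good 7431 := good_of_fermat (by norm_num) (by decide +kernel)
  have g7435 : Good 7435 := good_of_fermat (by norm_num) (by decide +kernel)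
  have g7441 : Good 7441 := good_of_fermat (by norm_num) (by decide +kernel)
  have g7451 : Good 7451 := good_of_fermat (by norm_num) (by decide +kernel)
  have g7455 : Good 7455 := good_of_fermat (by norm_num) (by decide +kernel)
  have g7458 : Good 7458 := good_of_fermat (by norm_num) (by decide +kernel)
  have g7473 : Good 7473 := good_of_fermat (by norm_num) (by decide +kernel)
  have g7478 : Good 7478 := good_of_fermat (by norm_num) (by decide +kernel)
  have g7491 : Good 7491 := good_of_fermat (by norm_num) (by decide +kernel)
  have g7492 : Good 7492 := good_of_fermat (by norm_num) (by decide +kernel)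
  have g7500 : Good 7500 := good_of_fermat (by norm_num) (by decide +kernel)
  have g7512 : Good 7512 := good_of_fermat (by norm_num) (by decide +kernel)
  have g7514 : Good 7514 := good_of_fermat (by norm_num) (by decide +kernel)
  have g7529 : Good 7529 := good_of_fermat (by norm_num) (by decide +kernel)
  have g7532 : Good 7532 := good_of_fermat (by norm_num) (by decide +kernel)
  have g7540 : Good 7540 := good_of_fermat (by norm_num) (by decide +kernel)
  have g7568 : Good 7568 := good_of_fermat (by norm_num) (by decide +kernel)
  exact good_cons g5547 (good_cons g5556 (good_cons g5558 (good_cons g5560 (good_cons g5563 (good_cons g5576 (good_cons g5583 (good_cons g5584 (good_cons g5595 (good_cons g5618 (good_cons g5626 (good_cons g5641 (good_cons g5642 (good_cons g5701 (good_cons g5731 (good_cons g5750 (good_cons g5761 (good_cons g5765 (good_cons g5795 (good_cons g5802 (good_cons g5811 (good_cons g5812 (good_cons g5817 (good_cons g5818 (good_cons g5839 (good_cons g5840 (good_cons g5854 (good_cons g5883 (good_cons g5894 (good_cons g5904 (good_cons g5910 (good_cons g5915 (good_cons g5929 (good_cons g5941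 (good_cons g5944 (good_cons g5965 (good_cons g5993 (good_cons g6004 (good_cons g6007 (good_cons g6010 (good_cons g6018 (good_cons g6022 (good_cons g6028 (good_cons g6031 (good_cons g6040 (good_cons g6043 (good_cons g6055 (good_cons g6057 (good_cons g6058 (good_cons g6070 (good_cons g6075 (good_cons g6094 (good_cons g6097 (good_cons g6098 (good_cons g6100 (good_cons g6103 (good_cons g6104 (good_cons g6106 (good_cons g6126 (good_cons g6138 (good_cons g6142 (good_cons g6171 (good_cons g6187 (good_cons g6191 (good_cons g6210 (good_cons g6215 (good_cons g6218 (good_cons g6220 (good_cons g6224 (good_cons g6228 (good_cons g6235 (good_cons g6240 (good_cons g6252 (good_cons g6255 (good_cons g6262 (good_cons g6270 (good_cons g6272 (good_cons g6274 (good_cons g6275 (good_cons g6284 (good_cons g6293 (good_cons g6302 (good_cons g6325 (good_cons g6327 (good_cons g6348 (good_cons g6349 (good_cons g6357 (good_cons g6361 (good_cons g6363 (good_cons g6364 (good_cons g6365 (good_cons g6367 (good_cons g6371 (good_cons g6392 (good_cons g6409 (good_cons g6412 (good_cons g6417 (good_cons g6425 (good_cons g6438 (good_cons g6440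 (good_cons g6445 (good_cons g6454 (good_cons g6455 (good_cons g6457 (good_cons g6463 (good_cons g6480 (good_cons g6483 (good_cons g6488 (good_cons g6492 (good_cons g6493 (good_cons g6505 (good_cons g6514 (good_cons g6518 (good_cons g6522 (good_cons g6525 (good_cons g6527 (good_cons g6531 (good_cons g6532 (good_cons g6540 (good_cons g6543 (good_cons g6547 (good_cons g6550 (good_cons g6560 (good_cons g6567 (good_cons g6572 (good_cons g6592 (good_cons g6599 (good_cons g6607 (good_cons g6611 (good_cons g6619 (good_cons g6622 (good_cons g6623 (good_cons g6625 (good_cons g6640 (good_cons g6643 (good_cons g6648 (good_cons g6662 (good_cons g6673 (good_cons g6674 (good_cons g6685 (good_cons g6689 (good_cons g6710 (good_cons g6720 (good_cons g6725 (good_cons g6730 (good_cons g6744 (good_cons g6754 (good_cons g6779 (good_cons g6796 (good_cons g6816 (good_cons g6818 (good_cons g6822 (good_cons g6838 (good_cons g6844 (good_cons g6849 (good_cons g6876 (good_cons g6883 (good_cons g6886 (good_cons g6902 (good_cons g6903 (good_cons g6907 (good_cons g6927 (good_cons g6928 (good_cons g6929 (good_cons g6932 (good_cons g6938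 (good_cons g6951 (good_cons g6968 (good_cons g6972 (good_cons g6975 (good_cons g6977 (good_cons g6978 (good_cons g6983 (good_cons g6994 (good_cons g7000 (good_cons g7002 (good_cons g7018 (good_cons g7019 (good_cons g7020 (good_cons g7025 (good_cons g7033 (good_cons g7039 (good_cons g7058 (good_cons g7064 (good_cons g7067 (good_cons g7070 (good_cons g7072 (good_cons g7073 (good_cons g7076 (good_cons g7092 (good_cons g7093 (good_cons g7096 (good_cons g7098 (good_cons g7102 (good_cons g7103 (good_cons g7105 (good_cons g7107 (good_cons g7112 (good_cons g7129 (good_cons g7133 (good_cons g7142 (good_cons g7146 (good_cons g7152 (good_cons g7161 (good_cons g7169 (good_cons g7171 (good_cons g7207 (good_cons g7208 (good_cons g7212 (good_cons g7216 (good_cons g7225 (good_cons g7238 (good_cons g7266 (good_cons g7273 (good_cons g7275 (good_cons g7277 (good_cons g7279 (good_cons g7284 (good_cons g7289 (good_cons g7296 (good_cons g7320 (good_cons g7325 (good_cons g7329 (good_cons g7334 (good_cons g7341 (good_cons g7347 (good_cons g7360 (good_cons g7362 (good_cons g7375 (good_cons g7381 (good_cons g7396 (good_cons g7405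 (good_cons g7406 (good_cons g7411 (good_cons g7413 (good_cons g7414 (good_cons g7415 (good_cons g7417 (good_cons g7418 (good_cons g7431 (good_cons g7435 (good_cons g7441 (good_cons g7451 (good_cons g7455 (good_cons g7458 (good_cons g7473 (good_cons g7478 (good_cons g7491 (good_cons g7492 (good_cons g7500 (good_cons g7512 (good_cons g7514 (good_cons g7529 (good_cons g7532 (good_cons g7540 (good_cons g7568 (good_nil))))))))))))))))))))))))))))))))))))))))))))))))))))))))))))))))))))))))))))))))))))))))))))))))))))))))))))))))))))))))))))))))))))))))))))))))))))))))))))))))))))))))))))))))))))))))))))))))))))))))))))))))))))))))))))))))))))))))))))))))))))))))))))))))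

end Pool.Agent.K7.H55.PL
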